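import Pool.Agent.LeoK.UpStmts

/-!
# Squad leok: module BCN (helper85)
-/

set_option autoImplicit false

open NumberField IsDedekindDomain Module MeasureTheory

namespace Pool.Agent.LeoK.H85

open Pool.Agent.LeoK

/-- `BCN`. -/
theorem bcn (h1 : BoxStmt) (h2 : NorStmt) : BcnStmt := by
  intro k _ _ hk R hR
  obtain ⟨C1, hC1, hbox⟩ := h1 k hk
  obtain ⟨-, -, hnor⟩ := h2 k hk
  obtain ⟨hTf, hTc⟩ := hbox (fun _ => -(2 * R)) (fun _ => 4 * R) (fun _ => by positivity)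
  set T : Set (𝓞 k) := {x : 𝓞 k | ∀ s : Sg k, -(2 * R) ≤ s (x : k) ∧ s (x : k) ≤ -(2 * R) + 4 * R}
    with hT
  refine ⟨C1 * ∏ _s : Sg k, (4 * R + 1), mul_pos hC1 (Finset.prod_pos fun _ _ => by positivity), ?_⟩
  intro a ha
  obtain ⟨hpos, hcard⟩ := hnor a ha
  set I : Ideal (𝓞 k) := Ideal.span {a} with hI
  set S : Set (𝓞 k) := {b : 𝓞 k | ∀ s : Sg k, |s (b : k)| ≤ R * |s (a : k)|} with hS
  have hsa : ∀ s : Sg k, 0 < |s (a : k)| := by
    intro s
    rw [abs_pos]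
    intro h
    apply ha
    have h3 := (map_eq_zero s).1 h
    exact_mod_cast h3
  classical
  have hrep : ∀ c : 𝓞 k ⧸ I, ∃ r : 𝓞 k, ∀ b ∈ S, Ideal.Quotient.mk I b = c →
      r ∈ S ∧ Ideal.Quotient.mk I r = c := by
    intro c
    by_cases h : ∃ b ∈ S, Ideal.Quotient.mk I b = c
    · obtain ⟨b, hb, hc⟩ := h
      exact ⟨b, fun _ _ _ => ⟨hb, hc⟩⟩
    · refine ⟨0, fun b hb hc => ?_⟩
      exact absurd ⟨b, hb, hc⟩ h
  choose r hr using hrep
  have hdiv : ∀ b ∈ S, ∃ t ∈ T, b - r (Ideal.Quotient.mk I b) = a * t := by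
    intro b hb
    obtain ⟨h3, h4⟩ := hr _ b hb rfl
    have h5 : b - r (Ideal.Quotient.mk I b) ∈ I := by
      rw [← Ideal.Quotient.eq_zero_iff_mem, map_sub, h4, sub_self]
    obtain ⟨t, ht⟩ := Ideal.mem_span_singleton.1 h5
    refine ⟨t, ?_, ht⟩
    intro s
    have h6 : s (b : k) - s ((r (Ideal.Quotient.mk I b) : 𝓞 k) : k) = s (a : k) * s (t : k) := by
      rw [← map_sub, ← map_mul]
      congr 1
      exact_mod_cast congrArg (fun x : 𝓞 k => (x : k)) ht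
    have h7 : |s (a : k)| * |s (t : k)| ≤ |s (a : k)| * (2 * R) := by
      rw [← abs_mul, ← h6]
      have h8 := abs_sub (s (b : k)) (s ((r (Ideal.Quotient.mk I b) : 𝓞 k) : k))
      have h9 := hb s
      have h10 := h3 s
      linarith
    have h8 := le_of_mul_le_mul_left h7 (hsa s)
    rw [abs_le] at h8
    constructor
    · exact h8.1
    · linarith [h8.2]
  choose! t ht1 ht2 using hdiv
  set g : 𝓞 k → (𝓞 k ⧸ I) × 𝓞 k := fun b => (Ideal.Quotient.mk I b, t b) with hg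
  have hmaps : Set.MapsTo g S ((Set.univ : Set (𝓞 k ⧸ I)) ×ˢ T) := by
    intro b hb
    exact ⟨Set.mem_univ _, ht1 b hb⟩
  have hinj : Set.InjOn g S := by
    intro b hb b' hb' h
    rw [hg] at h
    simp only [Prod.mk.injEq] at h
    have h3 := ht2 b hb
    have h4 := ht2 b' hb'
    rw [← h.1, ← h.2, ← h3] at h4
    exact (sub_left_injective h4).symm
  have hnc : (Nat.card (𝓞 k ⧸ I) : ℝ) = ∏ s : Sg k, |s (a : k)| := by
    rw [hcard, Ideal.absNorm_apply, Submodule.cardQuot_apply]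
  have hfin : Finite (𝓞 k ⧸ I) := by
    apply Nat.finite_of_card_ne_zero
    intro h
    rw [h] at hnc
    push_cast at hnc
    linarith
  have hfin2 : ((Set.univ : Set (𝓞 k ⧸ I)) ×ˢ T).Finite := Set.finite_univ.prod hTf
  refine ⟨Set.Finite.of_injOn hmaps hinj hfin2, ?_⟩
  have h3 := Set.ncard_le_ncard_of_injOn g hmaps hinj hfin2
  rw [Set.ncard_prod, Set.ncard_univ] at h3
  have h4 : (S.ncard : ℝ) ≤ (Nat.card (𝓞 k ⧸ I) : ℝ) * (T.ncard : ℝ) := by exact_mod_cast h3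
  rw [hnc] at h4
  refine h4.trans ?_
  rw [mul_comm]
  apply mul_le_mul_of_nonneg_right hTc
  exact zero_le_one.trans hpos

end Pool.Agent.LeoK.H85
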